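import Pool.Agent.Helper63_SIQ.Dua

/-!
# MP_021b97_an, Q1: module COM (commutativity, nondegeneracy, top degree)
-/

set_option autoImplicit false

namespace Pool.Agent.SIQ.H63

open Pool.Agent.SIU

/-! ### the block rotation -/

theorem rot_pow (n m : ℕ) : ∀ N : ℕ, N = n + 1 → ∀ i : Fin N,
    ((((finRotate N) ^ m) i : Fin N) : ℕ) = ((i : ℕ) + m) % N := by
  rintro N rfl i
  induction m generalizing i with
  | zero => simp [Nat.mod_eq_of_lt i.isLt]
  | succ m ih =>
    rw [pow_succ', Equiv.Perm.mul_apply, finRotate_succ_apply, Fin.val_add, ih, Fin.val_one']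
    rw [← Nat.add_assoc]
    conv_rhs => rw [Nat.add_mod]

/-- the block rotation -/
def kap (k l : ℕ) : Equiv.Perm (Fin (k + l)) := finAddFlip.trans (finCongr (Nat.add_comm l k))

theorem kap_eq (k l n : ℕ) (hn : k + l = n + 1) : kap k l = (finRotate (k + l)) ^ l := by
  ext i
  rw [rot_pow n l (k + l) hn]
  refine Fin.addCases (fun a => ?_) (fun a => ?_) i
  · show ((finCongr (Nat.add_comm l k) (finAddFlip (Fin.castAdd l a)) : Fin (k + l)) : ℕ) = _
    rw [finAddFlip_apply_castAdd]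
    show l + (a : ℕ) = ((a : ℕ) + l) % (k + l)
    rw [Nat.mod_eq_of_lt (by omega), Nat.add_comm]
  · show ((finCongr (Nat.add_comm l k) (finAddFlip (Fin.natAdd k a)) : Fin (k + l)) : ℕ) = _
    rw [finAddFlip_apply_natAdd]
    show (a : ℕ) = (k + (a : ℕ) + l) % (k + l)
    rw [show k + (a : ℕ) + l = a + (k + l) by omega, Nat.add_mod_right,
      Nat.mod_eq_of_lt (by omega)]

theorem sg_kap (k l : ℕ) (h : k + l = 6) : sg (kap k l) = (-1) ^ (k * l) := by
  unfold sg
  rw [kap_eq k l 5 h, map_pow, sign_finRotate, h]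
  obtain rfl : k = 6 - l := by omega
  have hl : l ≤ 6 := by omega
  interval_cases l <;> norm_num

theorem stdb_flip (k l : ℕ) (x : Fin (k + l)) :
    stdb 3 (l + k) (finAddFlip x) = stdb 3 (k + l) (kap k l x) := rfl

theorem wedge_comm6 {k l : ℕ} (h : k + l = 6) (a : Alt 3 k) (b : Alt 3 l) :
    wedge a b (stdb 3 (k + l)) = (-1) ^ (k * l) * wedge b a (stdb 3 (l + k)) := by
  rw [Pool.Agent.SIU.H18.wedge_apply, Pool.Agent.SIU.H18.wedge_apply, Nat.mul_comm l.factorial]
  have h1 : ∑ σ : Equiv.Perm (Fin (l + k)), ((Equiv.Perm.sign σ : ℤ) : ℝ) *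
        (b (fun i => stdb 3 (l + k) (σ (Fin.castAdd k i))) *
          a (fun j => stdb 3 (l + k) (σ (Fin.natAdd l j)))) =
      sg (kap k l) * ∑ σ : Equiv.Perm (Fin (k + l)), ((Equiv.Perm.sign σ : ℤ) : ℝ) *
        (a (fun i => stdb 3 (k + l) (σ (Fin.castAdd l i))) *
          b (fun j => stdb 3 (k + l) (σ (Fin.natAdd k j)))) := by
    rw [← Equiv.sum_comp (Equiv.mulLeft (kap k l)) (fun σ : Equiv.Perm (Fin (k + l)) =>
      ((Equiv.Perm.sign σ : ℤ) : ℝ) * (a (fun i => stdb 3 (k + l) (σ (Fin.castAdd l i))) *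
          b (fun j => stdb 3 (k + l) (σ (Fin.natAdd k j))))), Finset.mul_sum]
    refine (Fintype.sum_equiv (finAddFlip (m := k) (n := l)).permCongr _ _ fun ρ => ?_).symm
    have e1 : ((Equiv.Perm.sign ((finAddFlip (m := k) (n := l)).permCongr ρ) : ℤ) : ℝ) =
        sg ρ := by
      unfold sg
      rw [Equiv.Perm.sign_permCongr]
    have e2 : ∀ j, (finAddFlip (m := k) (n := l)).permCongr ρ (Fin.natAdd l j) =
        finAddFlip (ρ (Fin.castAdd l j)) := by
      intro j
      rw [Equiv.permCongr_apply, show finAddFlip.symm (Fin.natAdd l j) = Fin.castAdd l j from by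
        rw [Equiv.symm_apply_eq, finAddFlip_apply_castAdd]]
    have e3 : ∀ j, (finAddFlip (m := k) (n := l)).permCongr ρ (Fin.castAdd k j) =
        finAddFlip (ρ (Fin.natAdd k j)) := by
      intro j
      rw [Equiv.permCongr_apply, show finAddFlip.symm (Fin.castAdd k j) = Fin.natAdd k j from by
        rw [Equiv.symm_apply_eq, finAddFlip_apply_natAdd]]
    rw [e1]
    simp only [e2, e3, stdb_flip, Equiv.coe_mulLeft, Equiv.Perm.mul_apply]
    have h2 := sg_mul (kap k l) ρ
    have h3 := sg_sq (kap k l)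
    change sg (kap k l) * (sg (kap k l * ρ) * _) = _
    rw [h2]
    calc _ = (sg (kap k l) * sg (kap k l)) * (sg ρ *
          (a (fun i => stdb 3 (k + l) (kap k l (ρ (Fin.castAdd l i)))) *
          b (fun j => stdb 3 (k + l) (kap k l (ρ (Fin.natAdd k j)))))) := by ring
      _ = _ := by rw [h3]; ring
  rw [h1, ← sg_kap k l h]
  have h3 := sg_sq (kap k l)
  calc _ = (sg (kap k l) * sg (kap k l)) * (((k.factorial * l.factorial : ℕ) : ℝ)⁻¹ *
        ∑ σ : Equiv.Perm (Fin (k + l)), ((Equiv.Perm.sign σ : ℤ) : ℝ) *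
        (a (fun i => stdb 3 (k + l) (σ (Fin.castAdd l i))) *
          b (fun j => stdb 3 (k + l) (σ (Fin.natAdd k j))))) := by rw [h3, one_mul]
    _ = _ := by ring

theorem nondeg6 {k l : ℕ} (h : k + l = 6) (a : Alt 3 k)
    (ha : ∀ b : Alt 3 l, wedge a b (stdb 3 (k + l)) = 0) : a = 0 := by
  have h' : l + k = 6 := by omega
  ext v
  let Λ : Alt 3 k →L[ℝ] ℝ := ContinuousAlternatingMap.apply ℝ C3 ℝ v
  have h1 := wedge_eval h' (Λ : Alt 3 k →ₗ[ℝ] ℝ) (Λ.compContinuousAlternatingMap (ivD h'))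
    (fun u => rfl) a
  have h2 := wedge_comm6 h' (Λ.compContinuousAlternatingMap (ivD h')) a
  rw [ha, mul_zero, h1] at h2
  exact h2

/-- module COM -/
theorem com : ComStmt := fun _ _ h =>
  ⟨fun a b => wedge_comm6 h a b, fun a ha => nondeg6 h a ha, fun c ω => top_rot h ω c _⟩

end Pool.Agent.SIQ.H63
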