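import Pool.Agent.Helper63_SIQ.Alg
import Pool.Agent.Helper18_SIU.WDG

/-!
# MP_021b97_an, Q1: module DUA (the forms `ι_v vol`)
-/

set_option autoImplicit false

namespace Pool.Agent.SIQ.H63

open Pool.Agent.SIU

section

variable {k l : ℕ}

/-- transport of an alternating map -/
noncomputable def cas {n m : ℕ} (h : m = n) (f : Alt 3 n) : C3 [⋀^Fin m]→ₗ[ℝ] ℝ :=
  f.toAlternatingMap.domDomCongr (finCongr h.symm)

theorem cas_apply {n m : ℕ} (h : m = n) (f : Alt 3 n) (w : Fin m → C3) :
    cas h f w = f (fun i => w (Fin.cast h.symm i)) := rfl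

theorem stdb_cast {n m : ℕ} (h : m = n) (i : Fin n) :
    stdb 3 m (Fin.cast h.symm i) = stdb 3 n i := rfl

/-- the volume form on `k + l` vectors -/
noncomputable def volk (h : k + l = 6) : C3 [⋀^Fin (k + l)]→ₗ[ℝ] ℝ :=
  cas h vol3

theorem volk_apply (h : k + l = 6) (w : Fin (k + l) → C3) :
    volk h w = vol3 (fun i => w (Fin.cast h.symm i)) := by
  unfold volk
  rw [cas_apply]

theorem iv_volk (h : k + l = 6) (v : Fin k → C3) (u : Fin l → C3) :
    iv h v u = volk h (Fin.append v u) := by
  rw [iv_apply, volk_apply]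
  have : app6 h v u = fun i => Fin.append v u (Fin.cast h.symm i) := rfl
  rw [this]

theorem volk_stdb (h : k + l = 6) : volk h (stdb 3 (k + l)) = 1 := by
  rw [volk_apply, ← vol3_stdb]
  congr 1

theorem app6_update_left (h : k + l = 6) [DecidableEq (Fin k)] (v : Fin k → C3)
    (u : Fin l → C3) (i : Fin k) (x : C3) :
    app6 h (Function.update v i x) u =
      Function.update (app6 h v u) (Fin.cast h (Fin.castAdd l i)) x := by
  funext j
  unfold app6
  obtain ⟨j', rfl⟩ : ∃ j', j = Fin.cast h j' := ⟨Fin.cast h.symm j, by simp⟩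
  rw [show Fin.cast h.symm (Fin.cast h j') = j' by simp]
  refine Fin.addCases (fun a => ?_) (fun a => ?_) j'
  · by_cases hai : a = i
    · subst hai
      simp [Fin.append_left]
    · rw [Fin.append_left, Function.update_of_ne hai, Function.update_of_ne,
        show Fin.cast h.symm (Fin.cast h (Fin.castAdd l a)) = Fin.castAdd l a by simp,
        Fin.append_left]
      intro hh
      apply hai
      have := congrArg Fin.val hh
      simp at this
      exact Fin.ext this
  · rw [Fin.append_right, Function.update_of_ne, show Fin.cast h.symm (Fin.cast h (Fin.natAdd k a)) =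
      Fin.natAdd k a by simp, Fin.append_right]
    intro hh
    have := congrArg Fin.val hh
    simp at this
    omega

theorem norm_iv (h : k + l = 6) (v : Fin k → C3) : ‖iv h v‖ ≤ ‖vol3‖ * ∏ i, ‖v i‖ := by
  refine ContinuousAlternatingMap.opNorm_le_bound _ (by positivity) fun u => ?_
  rw [iv_apply]
  refine (vol3.le_opNorm _).trans (le_of_eq ?_)
  rw [mul_assoc]
  congr 1
  have h1 : ∏ i, ‖app6 h v u i‖ = ∏ i : Fin (k + l), ‖Fin.append v u i‖ :=
    Equiv.prod_comp (finCongr h.symm) (fun i => ‖Fin.append v u i‖)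
  rw [h1, Fin.prod_univ_add]
  simp only [Fin.append_left, Fin.append_right]

/-- `v ↦ ι_v vol` -/
noncomputable def ivD (h : k + l = 6) : C3 [⋀^Fin k]→L[ℝ] (Alt 3 l) :=
  AlternatingMap.mkContinuous
    { toFun := fun v => iv h v
      map_update_add' := by
        intro _ v i x y
        ext u
        rw [ContinuousAlternatingMap.add_apply, iv_apply, iv_apply, iv_apply, app6_update_left,
          app6_update_left, app6_update_left, vol3.map_update_add]
      map_update_smul' := by
        intro _ v i c x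
        ext u
        rw [ContinuousAlternatingMap.smul_apply, iv_apply, iv_apply, app6_update_left,
          app6_update_left, vol3.map_update_smul]
      map_eq_zero_of_eq' := by
        intro v i j hij hne
        ext u
        rw [iv_apply]
        apply vol3.map_eq_zero_of_eq (i := Fin.cast h (Fin.castAdd l i))
          (j := Fin.cast h (Fin.castAdd l j))
        · unfold app6
          rw [show Fin.cast h.symm (Fin.cast h (Fin.castAdd l i)) = Fin.castAdd l i by simp,
            show Fin.cast h.symm (Fin.cast h (Fin.castAdd l j)) = Fin.castAdd l j by simp,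
            Fin.append_left, Fin.append_left]
          exact hij
        · intro hh
          apply hne
          have := congrArg Fin.val hh
          simp at this
          exact Fin.ext this }
    ‖vol3‖ (fun v => norm_iv h v)

theorem ivD_apply (h : k + l = 6) (v : Fin k → C3) : ivD h v = iv h v := rfl

/-- the expansion of a form in the forms `ι_v vol` -/
theorem form_eq (h : k + l = 6) (φ : Alt 3 l) :
    ((k.factorial * l.factorial : ℕ) : ℝ)⁻¹ • ∑ σ : Equiv.Perm (Fin (k + l)),
      (sg σ * φ (fun j => stdb 3 (k + l) (σ (Fin.natAdd k j)))) •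
        iv h (fun i => stdb 3 (k + l) (σ (Fin.castAdd l i))) = φ := by
  obtain ⟨e, he⟩ := exists_basis (k + l) h
  apply ContinuousAlternatingMap.toAlternatingMap_injective
  refine Module.Basis.ext_alternating e fun t ht => ?_
  have h1 := sum_gen (stdb 3 (k + l)) (volk h) φ.toAlternatingMap t ht
  rw [volk_stdb, mul_one] at h1
  simp only [he]
  show (((k.factorial * l.factorial : ℕ) : ℝ)⁻¹ • ∑ σ : Equiv.Perm (Fin (k + l)),
      (sg σ * φ (fun j => stdb 3 (k + l) (σ (Fin.natAdd k j)))) •
        iv h (fun i => stdb 3 (k + l) (σ (Fin.castAdd l i))))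
      (fun j => stdb 3 (k + l) (t j)) = φ (fun j => stdb 3 (k + l) (t j))
  rw [ContinuousAlternatingMap.smul_apply, ContinuousAlternatingMap.sum_apply, smul_eq_mul]
  have h2 : ∀ σ : Equiv.Perm (Fin (k + l)),
      ((sg σ * φ (fun j => stdb 3 (k + l) (σ (Fin.natAdd k j)))) •
        iv h (fun i => stdb 3 (k + l) (σ (Fin.castAdd l i)))) (fun j => stdb 3 (k + l) (t j)) =
      sg σ * (φ.toAlternatingMap (fun j => stdb 3 (k + l) (σ (Fin.natAdd k j))) *
        volk h (Fin.append (fun i => stdb 3 (k + l) (σ (Fin.castAdd l i)))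
          (fun j => stdb 3 (k + l) (t j)))) := by
    intro σ
    rw [ContinuousAlternatingMap.smul_apply, iv_volk, smul_eq_mul, mul_assoc]
    rfl
  rw [Finset.sum_congr rfl fun σ _ => h2 σ, h1, ← mul_assoc, inv_mul_cancel₀, one_mul]
  · rfl
  · exact_mod_cast (Nat.mul_pos (Nat.factorial_pos k) (Nat.factorial_pos l)).ne'

theorem wedge_eval (h : k + l = 6) (Λ : Alt 3 l →ₗ[ℝ] ℝ) (α : Alt 3 k)
    (hα : ∀ v, α v = Λ (iv h v)) (φ : Alt 3 l) : wedge α φ (stdb 3 (k + l)) = Λ φ := by
  conv_rhs => rw [← form_eq h φ]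
  rw [Pool.Agent.SIU.H18.wedge_apply, map_smul, map_sum, smul_eq_mul]
  congr 1
  refine Finset.sum_congr rfl fun σ _ => ?_
  rw [map_smul, smul_eq_mul, hα, mul_assoc]
  unfold sg
  ring

theorem vol3_rot (c : C3) (w : Fin 6 → C3) :
    vol3 (fun i => rot3 c (w i)) = (∏ j, ‖c j‖ ^ 2) * vol3 w := top_rot rfl vol3 c w

theorem iv_rot (h : k + l = 6) (c : C3) (hc : ∀ j, ‖c j‖ = 1) (v : Fin k → C3) :
    (iv h v).compContinuousLinearMap ((rot3 c).restrictScalars ℝ) =
      iv h (fun i => rot3 (fun j => (starRingEnd ℂ) (c j)) (v i)) := by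
  ext u
  rw [ContinuousAlternatingMap.compContinuousLinearMap_apply, iv_apply, iv_apply]
  have h1 := vol3_rot c (app6 h (fun i => rot3 (fun j => (starRingEnd ℂ) (c j)) (v i)) u)
  have h2 : (∏ j, ‖c j‖ ^ 2) = 1 := by
    refine Finset.prod_eq_one fun j _ => ?_
    rw [hc j, one_pow]
  rw [h2, one_mul] at h1
  rw [← h1]
  congr 1
  funext i
  unfold app6
  generalize Fin.cast h.symm i = j
  refine Fin.addCases (fun a => ?_) (fun a => ?_) j
  · rw [Fin.append_left, Fin.append_left]
    funext m
    rw [rot3_apply, rot3_apply, ← mul_assoc, Complex.mul_conj, Complex.normSq_eq_norm_sq, hc m]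
    simp
  · rw [Fin.append_right, Fin.append_right]
    rfl

end

/-- module DUA -/
theorem dua : DuaStmt := fun _ _ h =>
  ⟨⟨ivD h, ivD_apply h⟩, fun Λ α hα φ => wedge_eval h Λ α hα φ, fun c hc v => iv_rot h c hc v⟩

end Pool.Agent.SIQ.H63
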