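import Pool.Agent.Helper15_SIQ.Stmts

/-!
# MP_021b97_an, Q1: algebra of constant forms, preparations for DUA and COM
-/

set_option autoImplicit false

namespace Pool.Agent.SIQ.H63

open Pool.Agent.SIU

/-! ### a sum over permutations -/

section

variable {V : Type} [AddCommGroup V] [Module ℝ V] {k l : ℕ}

/-- sign of a permutation as a real number -/
noncomputable def sg {ι : Type} [Fintype ι] [DecidableEq ι] (σ : Equiv.Perm ι) : ℝ :=
  ((Equiv.Perm.sign σ : ℤ) : ℝ)

theorem sg_mul {ι : Type} [Fintype ι] [DecidableEq ι] (σ τ : Equiv.Perm ι) :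
    sg (σ * τ) = sg σ * sg τ := by
  simp [sg, Equiv.Perm.sign_mul]

theorem sg_sq {ι : Type} [Fintype ι] [DecidableEq ι] (σ : Equiv.Perm ι) :
    sg σ * sg σ = 1 := by
  unfold sg
  rcases Int.units_eq_one_or (Equiv.Perm.sign σ) with h | h <;> rw [h] <;> simp

theorem alt_perm {ι : Type} [Fintype ι] [DecidableEq ι] (W : V [⋀^ι]→ₗ[ℝ] ℝ) (v : ι → V)
    (σ : Equiv.Perm ι) : W (fun i => v (σ i)) = sg σ * W v := by
  have h' : W (fun i => v (σ i)) = Equiv.Perm.sign σ • W v := W.map_perm v σ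
  rw [h', Units.smul_def, zsmul_eq_mul]
  rfl

theorem sum_core (c : Fin k ⊕ Fin l → V) (W : V [⋀^(Fin k ⊕ Fin l)]→ₗ[ℝ] ℝ)
    (φ : V [⋀^Fin l]→ₗ[ℝ] ℝ) :
    ∑ ρ : Equiv.Perm (Fin k ⊕ Fin l), sg ρ * (φ (fun j => c (ρ (Sum.inr j))) *
      W (Sum.elim (fun i => c (ρ (Sum.inl i))) (fun j => c (Sum.inr j)))) =
      ((k.factorial * l.factorial : ℕ) : ℝ) * (φ (fun j => c (Sum.inr j)) * W c) := by
  classical
  have hval : ∀ p : Equiv.Perm (Fin k) × Equiv.Perm (Fin l),
      φ (fun j => c (Sum.inr j)) * W c =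
      sg (Equiv.Perm.sumCongr p.1 p.2) *
        (φ (fun j => c (Equiv.Perm.sumCongr p.1 p.2 (Sum.inr j))) *
        W (Sum.elim (fun i => c (Equiv.Perm.sumCongr p.1 p.2 (Sum.inl i)))
          (fun j => c (Sum.inr j)))) := by
    rintro ⟨g, h⟩
    have e1 : sg (Equiv.Perm.sumCongr g h) = sg g * sg h := by
      unfold sg
      rw [Equiv.Perm.sign_sumCongr]
      push_cast
      rfl
    have e2 : φ (fun j => c (Equiv.Perm.sumCongr g h (Sum.inr j))) =
        sg h * φ (fun j => c (Sum.inr j)) := alt_perm φ (fun j => c (Sum.inr j)) h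
    have e3 : W (Sum.elim (fun i => c (Equiv.Perm.sumCongr g h (Sum.inl i)))
          (fun j => c (Sum.inr j))) = sg g * W c := by
      have e4 := alt_perm W c (Equiv.Perm.sumCongr g 1)
      have e5 : sg (Equiv.Perm.sumCongr g (1 : Equiv.Perm (Fin l))) = sg g := by
        unfold sg
        rw [Equiv.Perm.sign_sumCongr]
        simp
      rw [e5] at e4
      rw [← e4]
      congr 1
      funext x
      rcases x with x | x <;> rfl
    show _ = sg (Equiv.Perm.sumCongr g h) * (φ (fun j => c (Equiv.Perm.sumCongr g h (Sum.inr j))) *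
        W (Sum.elim (fun i => c (Equiv.Perm.sumCongr g h (Sum.inl i)))
          (fun j => c (Sum.inr j))))
    rw [e1, e2, e3]
    have hg := sg_sq g
    have hh := sg_sq h
    calc _ = (sg g * sg g) * (sg h * sg h) * (φ (fun j => c (Sum.inr j)) * W c) := by
          rw [hg, hh]; ring
      _ = _ := by ring
  have hsum := Finset.sum_of_injOn (s := (Finset.univ : Finset (Equiv.Perm (Fin k) ×
      Equiv.Perm (Fin l)))) (t := (Finset.univ : Finset (Equiv.Perm (Fin k ⊕ Fin l))))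
    (f := fun _ => φ (fun j => c (Sum.inr j)) * W c)
    (g := fun ρ => sg ρ * (φ (fun j => c (ρ (Sum.inr j))) *
      W (Sum.elim (fun i => c (ρ (Sum.inl i))) (fun j => c (Sum.inr j)))))
    (fun p => Equiv.Perm.sumCongr p.1 p.2)
    (fun p _ q _ hpq => Equiv.Perm.sumCongrHom_injective hpq) (fun _ _ => Finset.mem_univ _)
    (fun ρ _ hρ => by
      have hmt : ¬ Set.MapsTo ρ (Set.range (Sum.inl : Fin k → Fin k ⊕ Fin l))
          (Set.range (Sum.inl : Fin k → Fin k ⊕ Fin l)) := by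
        intro hm
        obtain ⟨p, hp⟩ := Equiv.Perm.mem_sumCongrHom_range_of_perm_mapsTo_inl hm
        exact hρ ⟨p, Finset.mem_coe.mpr (Finset.mem_univ _), hp⟩
      rw [Set.MapsTo] at hmt
      push Not at hmt
      obtain ⟨x, ⟨i, rfl⟩, hx⟩ := hmt
      obtain ⟨j, hj⟩ : ∃ j, ρ (Sum.inl i) = Sum.inr j := by
        rcases h : ρ (Sum.inl i) with a | a
        · exact absurd ⟨a, h.symm⟩ hx
        · exact ⟨a, rfl⟩
      have h0 : W (Sum.elim (fun i => c (ρ (Sum.inl i))) (fun j => c (Sum.inr j))) = 0 := by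
        apply W.map_eq_zero_of_eq _ (i := Sum.inl i) (j := Sum.inr j)
        · show c (ρ (Sum.inl i)) = c (Sum.inr j)
          rw [hj]
        · exact Sum.inl_ne_inr
      show sg ρ * (φ (fun j => c (ρ (Sum.inr j))) *
        W (Sum.elim (fun i => c (ρ (Sum.inl i))) (fun j => c (Sum.inr j)))) = 0
      rw [h0, mul_zero, mul_zero])
    (fun p _ => hval p)
  rw [← hsum, Finset.sum_const, Finset.card_univ, Fintype.card_prod, Fintype.card_perm,
    Fintype.card_perm, Fintype.card_fin, Fintype.card_fin, nsmul_eq_mul]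

omit [AddCommGroup V] [Module ℝ V] in
theorem append_eq_elim (a : Fin k → V) (b : Fin l → V) (i : Fin (k + l)) :
    Fin.append a b i = Sum.elim a b (finSumFinEquiv.symm i) := by
  obtain ⟨x, rfl⟩ := finSumFinEquiv.surjective i
  rw [Equiv.symm_apply_apply]
  rcases x with x | x
  · rw [finSumFinEquiv_apply_left, Fin.append_left]; rfl
  · rw [finSumFinEquiv_apply_right, Fin.append_right]; rfl

theorem sum_fin (b : Fin (k + l) → V) (W : V [⋀^Fin (k + l)]→ₗ[ℝ] ℝ)
    (φ : V [⋀^Fin l]→ₗ[ℝ] ℝ) :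
    ∑ σ : Equiv.Perm (Fin (k + l)), sg σ * (φ (fun j => b (σ (Fin.natAdd k j))) *
      W (Fin.append (fun i => b (σ (Fin.castAdd l i))) (fun j => b (Fin.natAdd k j)))) =
      ((k.factorial * l.factorial : ℕ) : ℝ) * (φ (fun j => b (Fin.natAdd k j)) * W b) := by
  classical
  have h := sum_core (fun x => b (finSumFinEquiv x)) (W.domDomCongr finSumFinEquiv.symm) φ
  have h1 : (W.domDomCongr finSumFinEquiv.symm) (fun x => b (finSumFinEquiv x)) = W b := by
    rw [AlternatingMap.domDomCongr_apply]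
    congr 1
    funext i
    exact congrArg b (Equiv.apply_symm_apply _ i)
  rw [h1] at h
  rw [show (fun j => b (Fin.natAdd k j)) = (fun j => b (finSumFinEquiv (Sum.inr j))) from rfl,
    ← h]
  refine (Fintype.sum_equiv (finSumFinEquiv (m := k) (n := l)).permCongr _ _ fun ρ => ?_).symm
  have e1 : sg ((finSumFinEquiv (m := k) (n := l)).permCongr ρ) = sg ρ := by
    unfold sg
    rw [Equiv.Perm.sign_permCongr]
  have e2 : ∀ j, (finSumFinEquiv (m := k) (n := l)).permCongr ρ (Fin.natAdd k j) =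
      finSumFinEquiv (ρ (Sum.inr j)) := by
    intro j
    rw [Equiv.permCongr_apply, finSumFinEquiv_symm_apply_natAdd]
  have e3 : ∀ j, (finSumFinEquiv (m := k) (n := l)).permCongr ρ (Fin.castAdd l j) =
      finSumFinEquiv (ρ (Sum.inl j)) := by
    intro j
    rw [Equiv.permCongr_apply, finSumFinEquiv_symm_apply_castAdd]
  rw [e1]
  simp only [e2, e3]
  rw [AlternatingMap.domDomCongr_apply]
  congr 3
  funext i
  rw [append_eq_elim]
  rfl

theorem exists_perm (t : Fin l → Fin (k + l)) (ht : Function.Injective t) :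
    ∃ τ : Equiv.Perm (Fin (k + l)), ∀ j, τ (Fin.natAdd k j) = t j := by
  classical
  let e : {x : Fin (k + l) // x ∈ Set.range (Fin.natAdd k : Fin l → Fin (k + l))} ≃
      {x : Fin (k + l) // x ∈ Set.range t} :=
    (Equiv.ofInjective _ (Fin.natAdd_injective l k)).symm.trans (Equiv.ofInjective t ht)
  refine ⟨e.extendSubtype, fun j => ?_⟩
  rw [Equiv.extendSubtype_apply_of_mem e _ ⟨j, rfl⟩]
  show ((Equiv.ofInjective t ht) ((Equiv.ofInjective _ (Fin.natAdd_injective l k)).symm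
    ⟨Fin.natAdd k j, _⟩) : Fin (k + l)) = t j
  rw [show (⟨Fin.natAdd k j, ⟨j, rfl⟩⟩ : Set.range (Fin.natAdd k : Fin l → Fin (k + l))) =
    Equiv.ofInjective _ (Fin.natAdd_injective l k) j from rfl, Equiv.symm_apply_apply]
  rfl

theorem sum_gen (b : Fin (k + l) → V) (W : V [⋀^Fin (k + l)]→ₗ[ℝ] ℝ)
    (φ : V [⋀^Fin l]→ₗ[ℝ] ℝ) (t : Fin l → Fin (k + l)) (ht : Function.Injective t) :
    ∑ σ : Equiv.Perm (Fin (k + l)), sg σ * (φ (fun j => b (σ (Fin.natAdd k j))) *
      W (Fin.append (fun i => b (σ (Fin.castAdd l i))) (fun j => b (t j)))) =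
      ((k.factorial * l.factorial : ℕ) : ℝ) * (φ (fun j => b (t j)) * W b) := by
  classical
  obtain ⟨τ, hτ⟩ := exists_perm t ht
  have h := sum_fin (fun i => b (τ i)) W φ
  have h2 := alt_perm W b τ
  rw [← Equiv.sum_comp (Equiv.mulLeft τ)]
  have h3 := sg_sq τ
  have h4 : ∀ σ : Equiv.Perm (Fin (k + l)),
      sg ((Equiv.mulLeft τ) σ) * (φ (fun j => b ((Equiv.mulLeft τ) σ (Fin.natAdd k j))) *
      W (Fin.append (fun i => b ((Equiv.mulLeft τ) σ (Fin.castAdd l i))) (fun j => b (t j)))) =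
      sg τ * (sg σ * (φ (fun j => b (τ (σ (Fin.natAdd k j)))) *
      W (Fin.append (fun i => b (τ (σ (Fin.castAdd l i))))
        (fun j => b (τ (Fin.natAdd k j)))))) := by
    intro σ
    simp only [hτ]
    rw [Equiv.coe_mulLeft, sg_mul]
    simp only [Equiv.Perm.coe_mul, Function.comp_apply]
    ring
  rw [Finset.sum_congr rfl fun σ _ => h4 σ, ← Finset.mul_sum, h, h2]
  simp only [hτ]
  calc _ = (sg τ * sg τ) * (((k.factorial * l.factorial : ℕ) : ℝ) *
        (φ (fun j => b (t j)) * W b)) := by ring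
    _ = _ := by rw [h3, one_mul]

end

/-! ### the standard basis -/

theorem exists_basis : ∀ n : ℕ, n = 6 → ∃ e : Module.Basis (Fin n) ℝ C3,
    ∀ i, e i = stdb 3 n i := by
  rintro n rfl
  let b := Complex.basisOneI.smulTower (Pi.basisFun ℂ (Fin 3))
  let e2 : Fin 2 × Fin 3 ≃ Fin 6 := (Equiv.prodComm _ _).trans finProdFinEquiv
  refine ⟨b.reindex e2, fun i => ?_⟩
  obtain ⟨⟨s, a⟩, rfl⟩ := e2.surjective i
  rw [Module.Basis.reindex_apply, Equiv.symm_apply_apply]
  show (Complex.basisOneI.smulTower (Pi.basisFun ℂ (Fin 3))) (s, a) = _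
  rw [Module.Basis.smulTower_apply]
  have h1 : ((e2 (s, a) : Fin 6) : ℕ) = s + 2 * a := rfl
  unfold stdb cvec
  rw [h1, show ((s : ℕ) + 2 * a) / 2 = a by omega, show ((s : ℕ) + 2 * a) % 2 = s by omega]
  funext j
  fin_cases s
  · simp [Pi.single_apply, Fin.ext_iff]
  · simp [Pi.single_apply, Fin.ext_iff]

theorem vol3_stdb : vol3 (stdb 3 6) = 1 := by
  rw [vol3_apply]
  have : (Matrix.of fun i => r6 (stdb 3 6 i)) = (1 : Matrix (Fin 6) (Fin 6) ℝ) := by
    ext i j
    fin_cases i <;> fin_cases j <;> simp [r6, stdb, cvec]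
  rw [this, Matrix.det_one]

theorem det_rot3 (c : C3) : LinearMap.det (((rot3 c).restrictScalars ℝ : C3 →L[ℝ] C3) : C3 →ₗ[ℝ] C3) =
    ∏ j, ‖c j‖ ^ 2 := by
  have h1 : (((rot3 c).restrictScalars ℝ : C3 →L[ℝ] C3) : C3 →ₗ[ℝ] C3) =
      ((Matrix.toLin' (Matrix.diagonal c)).restrictScalars ℝ) := by
    apply LinearMap.ext
    intro v
    funext i
    show rot3 c v i = (Matrix.toLin' (Matrix.diagonal c)) v i
    rw [rot3_apply, Matrix.toLin'_apply, Matrix.mulVec_diagonal]
  rw [h1, LinearMap.det_restrictScalars, LinearMap.det_toLin', Matrix.det_diagonal,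
    Algebra.norm_complex_apply, map_prod]
  refine Finset.prod_congr rfl fun j _ => ?_
  rw [Complex.normSq_eq_norm_sq]

theorem top_comp {n : ℕ} (hn : n = 6) (W : C3 [⋀^Fin n]→ₗ[ℝ] ℝ) (L : C3 →ₗ[ℝ] C3)
    (v : Fin n → C3) : W (fun i => L (v i)) = LinearMap.det L * W v := by
  obtain ⟨e, -⟩ := exists_basis n hn
  rw [AlternatingMap.eq_smul_basis_det e W, AlternatingMap.smul_apply, AlternatingMap.smul_apply]
  have := Module.Basis.det_comp e L v
  rw [show (fun i => L (v i)) = L ∘ v from rfl, this]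
  simp only [smul_eq_mul]
  ring

theorem top_rot {n : ℕ} (hn : n = 6) (ω : Alt 3 n) (c : C3) (v : Fin n → C3) :
    ω (fun i => rot3 c (v i)) = (∏ j, ‖c j‖ ^ 2) * ω v := by
  have := top_comp hn ω.toAlternatingMap
    (((rot3 c).restrictScalars ℝ : C3 →L[ℝ] C3) : C3 →ₗ[ℝ] C3) v
  rw [det_rot3] at this
  exact this

end Pool.Agent.SIQ.H63
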